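import Mathlib
import Pool.Agent.Q79.AreaAsyA

set_option autoImplicit false

/-! # The area of `{c | a c ^ N ∈ T}` -/

open MeasureTheory Set Real Filter Topology
open scoped ENNReal

namespace Pool.Agent.Q74.EX

open Pool.Agent.H749R2.Area

/-- polar coordinates for the lower integral -/
theorem lint_polar {h : ℂ → ℝ≥0∞} (hh : Measurable h) :
    ∫⁻ z, h z = ∫⁻ x in Ioi (0:ℝ), ENNReal.ofReal x * ∫⁻ φ in Ioo (-π) π, h (pt x φ) := by
  have hmeas : Measurable fun p : ℝ × ℝ => pt p.1 p.2 := by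
    unfold pt
    fun_prop
  rw [← Complex.lintegral_comp_polarCoord_symm]
  have ht : polarCoord.target = Ioi (0:ℝ) ×ˢ Ioo (-π) π := rfl
  rw [ht, Measure.volume_eq_prod, ← Measure.prod_restrict]
  have hsymm : ∀ p : ℝ × ℝ, Complex.polarCoord.symm p = pt p.1 p.2 := by
    intro p
    rw [Complex.polarCoord_symm_apply, pt]
    push_cast
    rfl
  simp only [hsymm, smul_eq_mul]
  have hAE : Measurable fun p : ℝ × ℝ => ENNReal.ofReal p.1 * h (pt p.1 p.2) :=
    (measurable_fst.ennreal_ofReal).mul (hh.comp hmeas)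
  rw [lintegral_prod _ hAE.aemeasurable]
  refine lintegral_congr fun x => ?_
  have hmx : Measurable fun φ : ℝ => pt x φ := by unfold pt; fun_prop
  have hm2 : Measurable fun φ : ℝ => h (pt x φ) := hh.comp hmx
  show ∫⁻ y in Ioo (-π) π, ENNReal.ofReal x * h (pt x y) = _
  rw [lintegral_const_mul _ hm2]

theorem pt_periodic (x φ : ℝ) : pt x (φ + 2 * π) = pt x φ := by
  rw [pt_eq, pt_eq]
  congr 1
  have : ((φ + 2 * π : ℝ) : ℂ) * Complex.I = φ * Complex.I + 2 * π * Complex.I := by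
    push_cast; ring
  rw [this, Complex.exp_periodic]

/-- multiplying the angle by `N` does not change the measure of the angles in a set -/
theorem ang {T : Set ℂ} (hT : MeasurableSet T) {N : ℕ} (hN : 1 ≤ N) (x : ℝ) :
    volume ({φ : ℝ | pt x (N * φ) ∈ T} ∩ Ioo (-π) π) =
      volume ({φ : ℝ | pt x φ ∈ T} ∩ Ioo (-π) π) := by
  have hπ := Real.pi_pos
  have hmx : Measurable fun φ : ℝ => pt x φ := by unfold pt; fun_prop
  have hmx' : Measurable fun φ : ℝ => pt x (N * φ) := hmx.comp (by fun_prop)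
  have hm0 : MeasurableSet {φ : ℝ | pt x φ ∈ T} := hmx hT
  have hmN : MeasurableSet {φ : ℝ | pt x (N * φ) ∈ T} := hmx' hT
  have hper : Function.Periodic ({φ : ℝ | pt x φ ∈ T}.indicator (fun _ => (1:ℝ))) (2 * π) := by
    intro y
    have e : pt x (y + 2 * π) = pt x y := pt_periodic x y
    by_cases h : pt x y ∈ T
    · rw [indicator_of_mem (show y ∈ {φ : ℝ | pt x φ ∈ T} from h), indicator_of_mem
        (show y + 2 * π ∈ {φ : ℝ | pt x φ ∈ T} by show pt x (y + 2 * π) ∈ T; rwa [e])]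
    · rw [indicator_of_notMem (show y ∉ {φ : ℝ | pt x φ ∈ T} from h), indicator_of_notMem
        (show y + 2 * π ∉ {φ : ℝ | pt x φ ∈ T} by
          intro h'
          apply h
          have h2 : pt x (y + 2 * π) ∈ T := h'
          rwa [e] at h2)]
  have h3 := Pool.Agent.Q79.AA.periodic_int hper (by
    intro x y
    rw [intervalIntegrable_iff]
    exact (integrableOn_const (by simp)).indicator hm0) hN
  have key : ∀ {S : Set ℝ}, MeasurableSet S →
      ∫ φ in (-π)..π, S.indicator (fun _ => (1:ℝ)) φ = (volume (S ∩ Ioo (-π) π)).toReal := by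
    intro S hS
    have heq : volume (S ∩ Ioo (-π) π) = volume (S ∩ Ioc (-π) π) := by
      apply measure_congr
      exact (ae_eq_refl _).inter Ioo_ae_eq_Ioc
    rw [heq, intervalIntegral.integral_of_le (by linarith), setIntegral_indicator hS,
      setIntegral_const, smul_eq_mul, mul_one, inter_comm]
    rfl
  have e1 : ∀ φ : ℝ, {φ : ℝ | pt x φ ∈ T}.indicator (fun _ => (1:ℝ)) (N * φ) =
        {φ : ℝ | pt x (N * φ) ∈ T}.indicator (fun _ => (1:ℝ)) φ := by
    intro φ
    simp only [indicator, Set.mem_ofPred_eq]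
  simp only [e1] at h3
  rw [key hmN, key hm0] at h3
  have hf : ∀ S : Set ℝ, volume (S ∩ Ioo (-π) π) ≠ ⊤ := fun S =>
    ((measure_mono inter_subset_right).trans_lt (by simp)).ne
  exact (ENNReal.toReal_eq_toReal_iff' (hf _) (hf _)).1 h3

/-- the density `‖λ‖ ^ (-2)` -/
noncomputable def wt (z : ℂ) : ℝ≥0∞ := ENNReal.ofReal (1 / ‖z‖ ^ 2)

theorem measurable_wt : Measurable wt := by
  unfold wt
  fun_prop

theorem wt_polar {T : Set ℂ} (hT : MeasurableSet T) :
    ∫⁻ z in T, wt z = ∫⁻ x in Ioi (0:ℝ), ENNReal.ofReal (1 / x) *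
      volume ({φ | pt x φ ∈ T} ∩ Ioo (-π) π) := by
  rw [← lintegral_indicator hT, lint_polar (measurable_wt.indicator hT)]
  refine setLIntegral_congr_fun measurableSet_Ioi fun x hx => ?_
  have hx' : 0 < x := hx
  have hmx : Measurable fun φ : ℝ => pt x φ := by unfold pt; fun_prop
  have hset : MeasurableSet {φ | pt x φ ∈ T} := hmx hT
  have h1 : (fun φ : ℝ => T.indicator wt (pt x φ)) =
      ({φ | pt x φ ∈ T}).indicator (fun _ => ENNReal.ofReal (1 / x ^ 2)) := by
    funext φ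
    by_cases h : pt x φ ∈ T
    · rw [indicator_of_mem h, indicator_of_mem (show φ ∈ {φ | pt x φ ∈ T} from h), wt,
        norm_pt hx'.le]
    · rw [indicator_of_notMem h, indicator_of_notMem (show φ ∉ {φ | pt x φ ∈ T} from h)]
  rw [h1, lintegral_indicator hset, Measure.restrict_restrict hset, setLIntegral_const,
    ← mul_assoc, ← ENNReal.ofReal_mul hx'.le]
  congr 2
  field_simp

/-- **the area of the preimage of `T` under `c ↦ a c ^ N`** -/
theorem area_pull {T : Set ℂ} (hT : MeasurableSet T) {N : ℕ} (hN : 1 ≤ N) {a : ℝ} (ha : 0 < a)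
    (hTa : ∀ z ∈ T, ‖z‖ ≤ a) :
    volume {c : ℂ | (a:ℂ) * c ^ N ∈ T} ≤ ENNReal.ofReal (1 / N) * ∫⁻ z in T, wt z := by
  have hN0 : (0:ℝ) < N := by exact_mod_cast hN
  have hmeas : MeasurableSet {c : ℂ | (a:ℂ) * c ^ N ∈ T} := by
    have : Measurable fun c : ℂ => (a:ℂ) * c ^ N := by fun_prop
    exact this hT
  rw [vol_polar hmeas, wt_polar hT]
  have e1 : ∀ x φ : ℝ, (a:ℂ) * pt x φ ^ N = pt (a * x ^ N) (N * φ) := by
    intro x φ
    rw [pt_pow, pt_eq, pt_eq]
    push_cast
    ring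
  have e2 : ∀ x : ℝ, volume ({φ | pt x φ ∈ {c : ℂ | (a:ℂ) * c ^ N ∈ T}} ∩ Ioo (-π) π) =
      volume ({φ | pt (a * x ^ N) φ ∈ T} ∩ Ioo (-π) π) := by
    intro x
    rw [← ang hT hN]
    congr 2
    ext φ
    simp only [Set.mem_ofPred_eq, e1]
  simp only [e2]
  set V : ℝ → ℝ≥0∞ := fun ρ => volume ({φ | pt ρ φ ∈ T} ∩ Ioo (-π) π) with hV
  have hV0 : ∀ ρ, a < ρ → V ρ = 0 := by
    intro ρ hρ
    have : {φ | pt ρ φ ∈ T} ∩ Ioo (-π) π = ∅ := by
      rw [eq_empty_iff_forall_notMem]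
      rintro φ ⟨h, -⟩
      have := hTa _ h
      rw [norm_pt (ha.trans hρ).le] at this
      linarith
    rw [hV]
    simp only
    rw [this, measure_empty]
  rw [← lintegral_const_mul' _ _ ENNReal.ofReal_ne_top]
  have him : (fun x : ℝ => a * x ^ N) '' Ioi 0 = Ioi 0 := by
    ext y
    constructor
    · rintro ⟨x, hx, rfl⟩
      have : 0 < x := hx
      show 0 < a * x ^ N
      positivity
    · intro hy
      have hy' : 0 < y := hy
      refine ⟨(y / a) ^ (1 / (N:ℝ)), show 0 < (y / a) ^ (1 / (N:ℝ)) by positivity, ?_⟩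
      simp only
      rw [← Real.rpow_natCast, ← Real.rpow_mul (by positivity)]
      rw [one_div, inv_mul_cancel₀ hN0.ne', Real.rpow_one]
      field_simp
  have hinj : InjOn (fun x : ℝ => a * x ^ N) (Ioi 0) := by
    intro x hx y hy hxy
    have hx' : 0 < x := hx
    have hy' : 0 < y := hy
    have h1 : x ^ N = y ^ N := mul_left_cancel₀ ha.ne' hxy
    exact (pow_left_inj₀ hx'.le hy'.le (by omega)).1 h1
  have hsub := lintegral_image_eq_lintegral_abs_deriv_mul (s := Ioi (0:ℝ))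
    (f := fun x : ℝ => a * x ^ N) (f' := fun x => a * (N * x ^ (N - 1))) measurableSet_Ioi
    (fun x _ => ((hasDerivAt_pow N x).const_mul a).hasDerivWithinAt) hinj
    (fun ρ => ENNReal.ofReal (1 / N) * (ENNReal.ofReal (1 / ρ) * V ρ))
  rw [him] at hsub
  rw [hsub]
  refine setLIntegral_mono' measurableSet_Ioi fun x hx => ?_
  have hx' : 0 < x := hx
  rcases le_or_gt x 1 with h1 | h1
  · rw [← mul_assoc, ← mul_assoc, ← ENNReal.ofReal_mul (abs_nonneg _), ← ENNReal.ofReal_mul (by positivity)]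
    gcongr
    rw [abs_of_pos (by positivity)]
    obtain ⟨M, rfl⟩ : ∃ M, N = M + 1 := ⟨N - 1, by omega⟩
    have e3 : a * (((M + 1 : ℕ) : ℝ) * x ^ (M + 1 - 1)) * (1 / ((M + 1 : ℕ) : ℝ)) *
        (1 / (a * x ^ (M + 1))) = 1 / x := by
      rw [Nat.add_sub_cancel]
      field_simp
      ring
    rw [e3, le_div_iff₀ hx']
    nlinarith
  · have : a < a * x ^ N := by
      have : 1 < x ^ N := one_lt_pow₀ h1 (by omega)
      nlinarith
    rw [show volume ({φ | pt (a * x ^ N) φ ∈ T} ∩ Ioo (-π) π) = 0 from hV0 _ this, mul_zero]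
    exact zero_le

end Pool.Agent.Q74.EX
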