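import Mathlib
import Pool.Prelude.Def_F_c31e40fa

set_option autoImplicit false

/-! # Attracting cycles of `λ e^w` persist in the family `z ^ n + c` -/

namespace Pool.Agent.Q74.EX

open N62a1eb23 Filter Topology Set Metric

/-- the exponential map with parameter `lam` -/
noncomputable def E (lam w : ℂ) : ℂ := lam * Complex.exp w

/-- the map `z ^ n + c` in the coordinate `w`, `z = c (1 + w / n)`, with `η = n c ^ (n - 1)` -/
noncomputable def P (n : ℕ) (η w : ℂ) : ℂ := η * (1 + w / n) ^ n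

/-- the hyperbolic parameters of the exponential family -/
def Hexp : Set ℂ := {lam | ∃ m w, IsAttractingCycle (fun w => lam * Complex.exp w) m w}

/-- the normalised polynomial has an attracting cycle -/
def HP (n : ℕ) (η : ℂ) : Prop := ∃ m w, IsAttractingCycle (P n η) m w

theorem pow_sub_le (a b : ℂ) {M : ℝ} (ha : ‖a‖ ≤ M) (hb : ‖b‖ ≤ M) (n : ℕ) :
    ‖a ^ (n + 1) - b ^ (n + 1)‖ ≤ (n + 1) * M ^ n * ‖a - b‖ := by
  have hM : 0 ≤ M := (norm_nonneg a).trans ha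
  induction n with
  | zero => simp
  | succ n ih =>
    have e : a ^ (n + 1 + 1) - b ^ (n + 1 + 1) =
        a * (a ^ (n + 1) - b ^ (n + 1)) + (a - b) * b ^ (n + 1) := by ring
    rw [e]
    refine (norm_add_le _ _).trans ?_
    rw [norm_mul, norm_mul, norm_pow]
    have h1 : ‖a‖ * ‖a ^ (n + 1) - b ^ (n + 1)‖ ≤ M * ((n + 1) * M ^ n * ‖a - b‖) :=
      mul_le_mul ha ih (norm_nonneg _) hM
    have h2 : ‖a - b‖ * ‖b‖ ^ (n + 1) ≤ ‖a - b‖ * M ^ (n + 1) := by gcongr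
    push_cast
    calc ‖a‖ * ‖a ^ (n + 1) - b ^ (n + 1)‖ + ‖a - b‖ * ‖b‖ ^ (n + 1)
        ≤ M * ((n + 1) * M ^ n * ‖a - b‖) + ‖a - b‖ * M ^ (n + 1) := add_le_add h1 h2
      _ = ((n:ℝ) + 1 + 1) * M ^ (n + 1) * ‖a - b‖ := by ring

theorem exp_approx {n : ℕ} (hn : 1 ≤ n) {w : ℂ} (hw : ‖w‖ ≤ n) :
    ‖(1 + w / n) ^ n - Complex.exp w‖ ≤ ‖w‖ ^ 2 * Real.exp ‖w‖ / n := by
  have hn0 : (0:ℝ) < n := by exact_mod_cast hn
  have hnc : (n:ℂ) ≠ 0 := by exact_mod_cast hn0.ne'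
  obtain ⟨k, rfl⟩ : ∃ k, n = k + 1 := ⟨n - 1, by omega⟩
  set n : ℕ := k + 1 with hnk
  have hx : ‖w / (n:ℂ)‖ = ‖w‖ / n := by rw [norm_div, Complex.norm_natCast]
  have hx1 : ‖w / (n:ℂ)‖ ≤ 1 := by rw [hx, div_le_one hn0]; exact hw
  have h1 : ‖1 + w / (n:ℂ)‖ ≤ Real.exp (‖w‖ / n) := by
    refine (norm_add_le _ _).trans ?_
    rw [norm_one, hx]
    linarith [Real.add_one_le_exp (‖w‖ / n)]
  have h2 : ‖Complex.exp (w / n)‖ ≤ Real.exp (‖w‖ / n) := by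
    rw [Complex.norm_exp]
    apply Real.exp_le_exp.2
    rw [← hx]
    exact Complex.re_le_norm _
  have h3 : Complex.exp w = Complex.exp (w / n) ^ n := by
    rw [← Complex.exp_nat_mul]
    congr 1
    field_simp
  have h4 := pow_sub_le (1 + w / n) (Complex.exp (w / n)) h1 h2 k
  rw [← hnk] at h4
  rw [h3]
  refine h4.trans ?_
  have h5 : ‖1 + w / (n:ℂ) - Complex.exp (w / n)‖ ≤ (‖w‖ / n) ^ 2 := by
    rw [← hx, ← norm_neg]
    have e : -(1 + w / (n:ℂ) - Complex.exp (w / n)) = Complex.exp (w / n) - 1 - w / n := by ring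
    rw [e]
    exact Complex.norm_exp_sub_one_sub_id_le hx1
  have h6 : Real.exp (‖w‖ / n) ^ k ≤ Real.exp ‖w‖ := by
    rw [← Real.exp_nat_mul]
    apply Real.exp_le_exp.2
    have hk : (k:ℝ) ≤ n := by rw [hnk]; push_cast; linarith
    calc (k:ℝ) * (‖w‖ / n) ≤ n * (‖w‖ / n) := by gcongr
      _ = ‖w‖ := by field_simp
  have hkn : ((k:ℝ) + 1) = n := by rw [hnk]; push_cast; ring
  rw [hkn]
  calc (n:ℝ) * Real.exp (‖w‖ / n) ^ k * ‖1 + w / (n:ℂ) - Complex.exp (w / n)‖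
      ≤ n * Real.exp ‖w‖ * (‖w‖ / n) ^ 2 := by gcongr
    _ = ‖w‖ ^ 2 * Real.exp ‖w‖ / n := by field_simp

/-- continuous convergence of the normalised polynomials to the exponential -/
theorem tendsto_P (lam w : ℂ) :
    Tendsto (fun p : (ℕ × ℂ) × ℂ => P p.1.1 p.1.2 p.2) ((atTop ×ˢ 𝓝 lam) ×ˢ 𝓝 w)
      (𝓝 (E lam w)) := by
  have h1 : Tendsto (fun p : (ℕ × ℂ) × ℂ => p.1.2) ((atTop ×ˢ 𝓝 lam) ×ˢ 𝓝 w) (𝓝 lam) :=
    tendsto_snd.comp tendsto_fst
  have h2 : Tendsto (fun p : (ℕ × ℂ) × ℂ => p.2) ((atTop ×ˢ 𝓝 lam) ×ˢ 𝓝 w) (𝓝 w) := tendsto_snd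
  have h0 : Tendsto (fun p : (ℕ × ℂ) × ℂ => p.1.1) ((atTop ×ˢ 𝓝 lam) ×ˢ 𝓝 w) atTop :=
    tendsto_fst.comp tendsto_fst
  have h0' : Tendsto (fun p : (ℕ × ℂ) × ℂ => (p.1.1 : ℝ)) ((atTop ×ˢ 𝓝 lam) ×ˢ 𝓝 w) atTop :=
    tendsto_natCast_atTop_atTop.comp h0
  have h3 : Tendsto (fun p : (ℕ × ℂ) × ℂ => (1 + p.2 / (p.1.1 : ℂ)) ^ p.1.1)
      ((atTop ×ˢ 𝓝 lam) ×ˢ 𝓝 w) (𝓝 (Complex.exp w)) := by
    have h4 : Tendsto (fun p : (ℕ × ℂ) × ℂ => Complex.exp p.2) ((atTop ×ˢ 𝓝 lam) ×ˢ 𝓝 w)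
        (𝓝 (Complex.exp w)) := (Complex.continuous_exp.tendsto w).comp h2
    have h5 : Tendsto (fun p : (ℕ × ℂ) × ℂ => (1 + p.2 / (p.1.1 : ℂ)) ^ p.1.1 - Complex.exp p.2)
        ((atTop ×ˢ 𝓝 lam) ×ˢ 𝓝 w) (𝓝 0) := by
      have hb : Tendsto (fun p : (ℕ × ℂ) × ℂ => (‖w‖ + 1) ^ 2 * Real.exp (‖w‖ + 1) / (p.1.1 : ℝ))
          ((atTop ×ˢ 𝓝 lam) ×ˢ 𝓝 w) (𝓝 0) := by
        exact Tendsto.div_atTop tendsto_const_nhds h0'
      refine squeeze_zero_norm' ?_ hb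
      have e1 : ∀ᶠ p : (ℕ × ℂ) × ℂ in (atTop ×ˢ 𝓝 lam) ×ˢ 𝓝 w, ‖p.2‖ < ‖w‖ + 1 :=
        h2.norm.eventually_lt_const (by linarith)
      have e2 : ∀ᶠ p : (ℕ × ℂ) × ℂ in (atTop ×ˢ 𝓝 lam) ×ˢ 𝓝 w, ‖w‖ + 1 ≤ (p.1.1 : ℝ) :=
        h0'.eventually_ge_atTop _
      filter_upwards [e1, e2, h0.eventually_ge_atTop 1] with p hp1 hp2 hp3
      have hp0 : (0:ℝ) < p.1.1 := by exact_mod_cast hp3
      refine (exp_approx hp3 (by linarith)).trans ?_
      have : ‖p.2‖ ≤ ‖w‖ + 1 := hp1.le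
      gcongr
    have h6 := h5.add h4
    simpa using h6
  exact h1.mul h3

theorem tendsto_iter (lam w : ℂ) (m : ℕ) :
    Tendsto (fun p : (ℕ × ℂ) × ℂ => (P p.1.1 p.1.2)^[m] p.2) ((atTop ×ˢ 𝓝 lam) ×ˢ 𝓝 w)
      (𝓝 ((E lam)^[m] w)) := by
  induction m with
  | zero => exact tendsto_snd
  | succ m ih =>
    have h1 : Tendsto (fun p : (ℕ × ℂ) × ℂ => (p.1, (P p.1.1 p.1.2)^[m] p.2))
        ((atTop ×ˢ 𝓝 lam) ×ˢ 𝓝 w) ((atTop ×ˢ 𝓝 lam) ×ˢ 𝓝 ((E lam)^[m] w)) :=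
      tendsto_fst.prodMk ih
    have h2 := (tendsto_P lam ((E lam)^[m] w)).comp h1
    simp only [Function.iterate_succ_apply']
    exact h2

theorem diff_E (lam : ℂ) : Differentiable ℂ (E lam) := by
  unfold E; fun_prop

theorem diff_P (n : ℕ) (η : ℂ) : Differentiable ℂ (P n η) := by
  unfold P; fun_prop

/-- **persistence of attracting cycles** under continuous convergence of entire functions -/
theorem persist_gen {ι : Type*} {l : Filter ι} {F : ι → ℂ → ℂ} {g : ℂ → ℂ}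
    (hF : ∀ p, Differentiable ℂ (F p)) (hg : Differentiable ℂ g) {m : ℕ}
    (hcc : ∀ w, Tendsto (fun y : ι × ℂ => (F y.1)^[m] y.2) (l ×ˢ 𝓝 w) (𝓝 (g^[m] w))) {w₀ : ℂ}
    (h : IsAttractingCycle g m w₀) :
    ∀ᶠ p in l, ∃ w, IsAttractingCycle (F p) m w := by
  obtain ⟨hm, hper, -, hlt⟩ := h
  have hper' : g^[m] w₀ = w₀ := hper
  set f : ℂ → ℂ := g^[m] with hf
  have hfd : Differentiable ℂ f := hg.iterate m
  obtain ⟨θ, hθ1, hθ2⟩ := exists_between hlt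
  have hθ0 : 0 ≤ θ := (norm_nonneg _).trans hθ1.le
  have hdc : Continuous (deriv f) := hfd.contDiff.continuous_deriv le_top
  have hnear : ∀ᶠ w in 𝓝 w₀, ‖deriv f w‖ < θ := hdc.norm.continuousAt.eventually_lt_const hθ1
  obtain ⟨r, hr, hball⟩ := Metric.eventually_nhds_iff_ball.1 hnear
  -- locally uniform convergence
  have hloc : TendstoLocallyUniformlyOn (fun (p : ι) (w : ℂ) => (F p)^[m] w) f l univ := by
    rw [tendstoLocallyUniformlyOn_iff_forall_tendsto]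
    intro w _
    rw [nhdsWithin_univ]
    have h1 : Tendsto (fun y : ι × ℂ => f y.2) (l ×ˢ 𝓝 w) (𝓝 (f w)) :=
      (hfd.continuous.tendsto w).comp tendsto_snd
    exact (h1.prodMk_nhds (hcc w)).mono_right (nhds_le_uniformity _)
  have hder := hloc.deriv (Eventually.of_forall fun p =>
    ((hF p).iterate m).differentiableOn) isOpen_univ
  have hcomp : IsCompact (closedBall w₀ (r / 2)) := isCompact_closedBall _ _
  have hder2 := (tendstoLocallyUniformlyOn_iff_tendstoUniformlyOn_of_compact hcomp).1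
    (hder.mono (subset_univ _))
  obtain ⟨θ', hθθ', hθ'1⟩ := exists_between hθ2
  have hθ'0 : 0 ≤ θ' := hθ0.trans hθθ'.le
  have ev1 := Metric.tendstoUniformlyOn_iff.1 hder2 (θ' - θ) (by linarith)
  have hfix : Tendsto (fun p : ι => (F p)^[m] w₀) l (𝓝 (f w₀)) :=
    (hcc w₀).comp (tendsto_id.prodMk tendsto_const_nhds)
  rw [hper'] at hfix
  have ev2 := Metric.tendsto_nhds.1 hfix ((1 - θ') * (r / 2)) (by
    have : 0 < 1 - θ' := by linarith
    positivity)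
  filter_upwards [ev1, ev2] with p hp1 hp2
  set G : ℂ → ℂ := (F p)^[m] with hG
  have hGd : Differentiable ℂ G := (hF p).iterate m
  have hd : ∀ w ∈ closedBall w₀ (r / 2), ‖deriv G w‖ ≤ θ' := by
    intro w hw
    have h1 := hp1 w hw
    have h2 : ‖deriv f w‖ < θ := hball w (closedBall_subset_ball (by linarith) hw)
    have h3 : ‖deriv f w - deriv G w‖ < θ' - θ := by
      rw [← dist_eq_norm]; exact h1
    have h4 : deriv G w = deriv f w - (deriv f w - deriv G w) := by ring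
    rw [h4]
    exact (norm_sub_le _ _).trans (by linarith)
  have hlip : ∀ x ∈ closedBall w₀ (r / 2), ∀ y ∈ closedBall w₀ (r / 2),
      ‖G y - G x‖ ≤ θ' * ‖y - x‖ := by
    intro x hx y hy
    exact (convex_closedBall w₀ (r / 2)).norm_image_sub_le_of_norm_deriv_le
      (fun z _ => hGd z) hd hx hy
  have hw₀ : w₀ ∈ closedBall w₀ (r / 2) := mem_closedBall_self (by positivity)
  have hmaps : MapsTo G (closedBall w₀ (r / 2)) (closedBall w₀ (r / 2)) := by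
    intro w hw
    rw [mem_closedBall, dist_eq_norm]
    have h1 := hlip w₀ hw₀ w hw
    have h2 : ‖G w₀ - w₀‖ < (1 - θ') * (r / 2) := by rw [← dist_eq_norm]; exact hp2
    have h3 : ‖w - w₀‖ ≤ r / 2 := by rw [← dist_eq_norm]; exact hw
    have h4 : G w - w₀ = (G w - G w₀) + (G w₀ - w₀) := by ring
    rw [h4]
    refine (norm_add_le _ _).trans ?_
    have h5 : θ' * ‖w - w₀‖ ≤ θ' * (r / 2) := by gcongr
    linarith
  have hcontr : ContractingWith ⟨θ', hθ'0⟩ (hmaps.restrict G _ _) := by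
    refine ⟨by exact_mod_cast hθ'1, ?_⟩
    apply LipschitzWith.of_dist_le_mul
    rintro ⟨x, hx⟩ ⟨y, hy⟩
    have := hlip y hy x hx
    rw [← dist_eq_norm, ← dist_eq_norm] at this
    exact this
  obtain ⟨y, hy, hyf, -⟩ := hcontr.exists_fixedPoint' isClosed_closedBall.isComplete hmaps hw₀
    (edist_ne_top _ _)
  exact ⟨y, hm, hyf, hGd y, (hd y hy).trans_lt hθ'1⟩

/-- attracting cycles of the exponential map persist in the normalised polynomials -/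
theorem persist {lam : ℂ} (h : lam ∈ Hexp) :
    ∀ᶠ p : ℕ × ℂ in atTop ×ˢ 𝓝 lam, HP p.1 p.2 := by
  obtain ⟨m, w₀, h⟩ := h
  have := persist_gen (F := fun p : ℕ × ℂ => P p.1 p.2) (g := E lam) (l := atTop ×ˢ 𝓝 lam)
    (fun p => diff_P p.1 p.2) (diff_E lam) (m := m) (fun w => tendsto_iter lam w m) h
  filter_upwards [this] with p hp
  exact ⟨m, hp⟩

theorem tendsto_iterE (lam w : ℂ) (m : ℕ) :
    Tendsto (fun p : ℂ × ℂ => (E p.1)^[m] p.2) (𝓝 lam ×ˢ 𝓝 w) (𝓝 ((E lam)^[m] w)) := by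
  rw [← nhds_prod_eq]
  have : Continuous fun p : ℂ × ℂ => (E p.1)^[m] p.2 := by
    induction m with
    | zero => exact continuous_snd
    | succ m ih =>
      simp only [Function.iterate_succ_apply']
      exact continuous_fst.mul (Complex.continuous_exp.comp ih)
  exact this.tendsto (lam, w)

/-- the hyperbolic parameters of the exponential family form an open set -/
theorem isOpen_Hexp : IsOpen Hexp := by
  rw [isOpen_iff_mem_nhds]
  rintro lam ⟨m, w₀, h⟩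
  have := persist_gen (F := E) (g := E lam) (l := 𝓝 lam)
    diff_E (diff_E lam) (m := m) (fun w => tendsto_iterE lam w m) h
  filter_upwards [this] with p hp
  exact ⟨m, hp⟩

/-- transfer to the maps `z ^ n + c` -/
theorem transfer {n : ℕ} (hn : 2 ≤ n) {c : ℂ} (hc : c ≠ 0) (h : HP n (n * c ^ (n - 1))) :
    ∃ m z, IsAttractingCycle (fun z => z ^ n + c) m z := by
  obtain ⟨m, w, hm, hper, -, hlt⟩ := h
  have hn0 : (n:ℂ) ≠ 0 := by exact_mod_cast (by omega : n ≠ 0)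
  set f : ℂ → ℂ := fun z => z ^ n + c with hf
  set g : ℂ → ℂ := P n (n * c ^ (n - 1)) with hg
  set φ : ℂ → ℂ := fun w => c * (1 + w / n) with hφ
  have hsemi : Function.Semiconj φ g f := by
    intro w
    simp only [hφ, hg, hf, P]
    rw [mul_pow]
    obtain ⟨k, rfl⟩ : ∃ k, n = k + 1 := ⟨n - 1, by omega⟩
    rw [Nat.add_sub_cancel]
    field_simp
    ring
  have hsm := hsemi.iterate_right m
  have hfd : Differentiable ℂ f := by rw [hf]; fun_prop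
  have hgd : Differentiable ℂ g := diff_P _ _
  have hφ' : ∀ w, HasDerivAt φ (c / n) w := by
    intro w
    have h1 := (((hasDerivAt_id w).div_const (n:ℂ)).const_add 1).const_mul c
    simp only [id] at h1
    refine h1.congr_deriv ?_
    ring
  have hper' : g^[m] w = w := hper
  refine ⟨m, φ w, hm, ?_, (hfd.iterate m) _, ?_⟩
  · show f^[m] (φ w) = φ w
    rw [← hsm w, hper']
  · have h1 : HasDerivAt (fun w => φ (g^[m] w)) (c / n * deriv g^[m] w) w :=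
      (hφ' (g^[m] w)).comp w ((hgd.iterate m) w).hasDerivAt
    have h2 : HasDerivAt (fun w => f^[m] (φ w)) (deriv f^[m] (φ w) * (c / n)) w :=
      ((hfd.iterate m) (φ w)).hasDerivAt.comp w (hφ' w)
    have h3 : (fun w => φ (g^[m] w)) = fun w => f^[m] (φ w) := funext fun w => hsm w
    rw [h3] at h1
    have h4 := h2.unique h1
    have h5 : c / n ≠ 0 := div_ne_zero hc hn0
    have h6 : deriv f^[m] (φ w) = deriv g^[m] w := by
      apply mul_right_cancel₀ h5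
      rw [h4]; ring
    rw [h6]; exact hlt

/-- `G` is the set of the parameters near which the normalised polynomials of large degree have an
attracting cycle -/
def G : Set ℂ := {lam | ∀ᶠ p : ℕ × ℂ in atTop ×ˢ 𝓝 lam, HP p.1 p.2}

theorem Hexp_sub_G : Hexp ⊆ G := fun _ h => persist h

theorem mem_G {lam : ℂ} (h : lam ∈ G) : ∃ N : ℕ, ∃ U : Set ℂ, IsOpen U ∧ lam ∈ U ∧
    ∀ n, N ≤ n → ∀ η ∈ U, HP n η := by
  have h' : ∀ᶠ p : ℕ × ℂ in atTop ×ˢ 𝓝 lam, HP p.1 p.2 := h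
  rw [Filter.eventually_prod_iff] at h'
  obtain ⟨pa, hpa, pb, hpb, hab⟩ := h'
  obtain ⟨N, hN⟩ := eventually_atTop.1 hpa
  obtain ⟨U, hU1, hU2, hU3⟩ := _root_.eventually_nhds_iff.1 hpb
  exact ⟨N, U, hU2, hU3, fun n hn η hη => hab (hN n hn) (hU1 η hη)⟩

theorem compact_G {K : Set ℂ} (hK : IsCompact K) (hKG : K ⊆ G) :
    ∃ N : ℕ, ∀ n, N ≤ n → ∀ η ∈ K, HP n η := by
  refine hK.induction_on (p := fun S => ∃ N : ℕ, ∀ n, N ≤ n → ∀ η ∈ S, HP n η) ⟨0, by simp⟩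
    ?_ ?_ ?_
  · rintro s t hst ⟨N, hN⟩
    exact ⟨N, fun n hn η hη => hN n hn η (hst hη)⟩
  · rintro s t ⟨N, hN⟩ ⟨M, hM⟩
    refine ⟨max N M, fun n hn η hη => ?_⟩
    rcases hη with h | h
    · exact hN n (by omega) η h
    · exact hM n (by omega) η h
  · intro x hx
    obtain ⟨N, U, hU, hxU, h⟩ := mem_G (hKG hx)
    exact ⟨U, mem_nhdsWithin_of_mem_nhds (hU.mem_nhds hxU), N, h⟩

end Pool.Agent.Q74.EX
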