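import Mathlib
import Pool.Prelude.Def_F_c31e40fa
import Pool.Agent.Q74.EX.Per
import Pool.Agent.Q74.EX.Meas
import Pool.Agent.H749R2.Hyp2
import Pool.Agent.TH937.LF.Final
import Pool.Agent.Results.MP_c35c17_an.AreaOrderOneOverN

set_option autoImplicit false

open N62a1eb23 MeasureTheory Set Filter Topology Metric
open scoped ENNReal

namespace Pool.Agent.Q74.EX

/-- the hyperbolic parameters of `z ^ n + c` -/
def Hyp (n : ℕ) : Set ℂ := {c | ∃ m z, IsAttractingCycle (fun z => z ^ n + c) m z}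

theorem hyp_of_HP {n : ℕ} (hn : 2 ≤ n) {c : ℂ} (h : HP n (n * c ^ (n - 1))) : c ∈ Hyp n := by
  by_cases hc : c = 0
  · subst hc
    obtain ⟨z, hz⟩ := Pool.Agent.H749R2.Hyp.P1 hn (c := 0) (by
      rw [norm_zero, zero_pow (by omega)]; norm_num)
    exact ⟨1, z, hz⟩
  · exact transfer hn hc h

theorem hyp_small {n : ℕ} (hn : 2 ≤ n) {c : ℂ} (h : n * ‖c‖ ^ (n - 1) ≤ Real.exp (-1)) :
    c ∈ Hyp n := by
  obtain ⟨z, hz⟩ := Pool.Agent.H749R2.Hyp.P1 hn (c := c) (by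
    calc Real.exp 1 * (n * ‖c‖ ^ (n - 1)) ≤ Real.exp 1 * Real.exp (-1) := by gcongr
      _ = 1 := by rw [← Real.exp_add]; norm_num)
  exact ⟨1, z, hz⟩

theorem isOpen_G : IsOpen G := by
  rw [isOpen_iff_mem_nhds]
  intro lam h
  obtain ⟨N, U, hU, hxU, h⟩ := mem_G h
  filter_upwards [hU.mem_nhds hxU] with μ hμ
  show ∀ᶠ p : ℕ × ℂ in atTop ×ˢ 𝓝 μ, HP p.1 p.2
  filter_upwards [(eventually_ge_atTop N).prod_mk (hU.mem_nhds hμ)] with p hp
  exact h p.1 hp.1 p.2 hp.2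

/-- `n / (n - 1)` -/
noncomputable def rat (n : ℕ) : ℝ := n / ((n - 1 : ℕ) : ℝ)

theorem rat_tendsto : Tendsto rat atTop (𝓝 1) := by
  have h : Tendsto (fun n : ℕ => (1:ℝ) + 1 / (n:ℝ)) atTop (𝓝 (1 + 0)) :=
    tendsto_const_nhds.add tendsto_one_div_atTop_nhds_zero_nat
  rw [add_zero] at h
  rw [← tendsto_add_atTop_iff_nat 1]
  refine h.congr' ?_
  filter_upwards [eventually_ge_atTop 1] with n hn
  have : (n:ℝ) ≠ 0 := by positivity
  rw [rat, Nat.add_sub_cancel]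
  push_cast
  field_simp

/-- the part of the non-hyperbolic parameters in the annulus -/
theorem area_mid {F : Set ℂ} (hF : MeasurableSet F) {Y : ℝ} {δ : ℝ≥0∞} (hδ : δ ≠ 0) :
    ∀ᶠ n : ℕ in atTop,
      (n:ℝ≥0∞) * volume {c : ℂ | c ∈ multibrotSet n \ Hyp n ∧ (n:ℂ) * c ^ (n - 1) ∈ F ∧
        n * ‖c‖ ^ (n - 1) ≤ Y} ≤
      ENNReal.ofReal (rat n) * ((∫⁻ z in F \ G, wt z) + ENNReal.ofReal (Real.exp 2) * δ) := by
  set A : Set ℂ := {z | Real.exp (-1) ≤ ‖z‖ ∧ ‖z‖ ≤ Y} with hA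
  have hAm : MeasurableSet A :=
    ((isClosed_le continuous_const continuous_norm).inter
      (isClosed_le continuous_norm continuous_const)).measurableSet
  have hGm : MeasurableSet G := isOpen_G.measurableSet
  have hfin : volume (G ∩ A) ≠ ⊤ := by
    refine ((measure_mono (?_ : G ∩ A ⊆ closedBall 0 Y)).trans_lt
      (isCompact_closedBall _ _).measure_lt_top).ne
    rintro z ⟨-, -, hz⟩
    rw [mem_closedBall, dist_zero_right]; exact hz
  obtain ⟨K, hKG, hK, hKδ⟩ := (hGm.inter hAm).exists_isCompact_sdiff_lt hfin hδ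
  obtain ⟨N, hN⟩ := compact_G hK (fun z hz => (hKG hz).1)
  set T : Set ℂ := (F ∩ A) \ K with hT
  have hTm : MeasurableSet T := (hF.inter hAm).diff hK.measurableSet
  -- the integral over `T`
  have hint : ∫⁻ z in T, wt z ≤ (∫⁻ z in F \ G, wt z) + ENNReal.ofReal (Real.exp 2) * δ := by
    have hsub : T ⊆ (F \ G) ∪ ((G ∩ A) \ K) := by
      rintro z ⟨⟨h1, h2⟩, h3⟩
      by_cases h : z ∈ G
      · exact Or.inr ⟨⟨h, h2⟩, h3⟩
      · exact Or.inl ⟨h1, h⟩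
    refine (lintegral_mono_set hsub).trans ((lintegral_union_le _ _ _).trans ?_)
    gcongr
    calc ∫⁻ z in (G ∩ A) \ K, wt z ≤ ∫⁻ z in (G ∩ A) \ K, ENNReal.ofReal (Real.exp 2) := by
          refine setLIntegral_mono' ((hGm.inter hAm).diff hK.measurableSet) fun z hz => ?_
          have h1 : Real.exp (-1) ≤ ‖z‖ := hz.1.2.1
          apply ENNReal.ofReal_le_ofReal
          have h2 : 0 < Real.exp (-1) := Real.exp_pos _
          calc 1 / ‖z‖ ^ 2 ≤ 1 / Real.exp (-1) ^ 2 := by gcongr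
            _ = Real.exp 2 := by
              rw [← Real.exp_nat_mul, one_div, ← Real.exp_neg]
              norm_num
      _ = ENNReal.ofReal (Real.exp 2) * volume ((G ∩ A) \ K) := setLIntegral_const _ _
      _ ≤ ENNReal.ofReal (Real.exp 2) * δ := by gcongr
  obtain ⟨M, hM⟩ := exists_nat_ge Y
  filter_upwards [eventually_ge_atTop N, eventually_ge_atTop M, eventually_ge_atTop 2] with
    n hnN hnM hn2
  have hnY : Y ≤ n := hM.trans (by exact_mod_cast hnM)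
  have hn0 : (0:ℝ) < n := by positivity
  have hpull := area_pull hTm (N := n - 1) (by omega) (a := n) hn0
    (fun z hz => hz.1.2.2.trans hnY)
  have hsub : {c : ℂ | c ∈ multibrotSet n \ Hyp n ∧ (n:ℂ) * c ^ (n - 1) ∈ F ∧
        n * ‖c‖ ^ (n - 1) ≤ Y} ⊆ {c : ℂ | ((n:ℝ):ℂ) * c ^ (n - 1) ∈ T} := by
    rintro c ⟨⟨h1, h2⟩, h3, h4⟩
    have e : ((n:ℝ):ℂ) * c ^ (n - 1) = n * c ^ (n - 1) := by push_cast; ring
    have en : ‖(n:ℂ) * c ^ (n - 1)‖ = n * ‖c‖ ^ (n - 1) := by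
      rw [norm_mul, norm_pow, Complex.norm_natCast]
    show ((n:ℝ):ℂ) * c ^ (n - 1) ∈ T
    rw [e]
    refine ⟨⟨h3, ?_, ?_⟩, fun hKc => h2 (hyp_of_HP hn2 (hN n hnN _ hKc))⟩
    · rw [en]
      by_contra hcon
      exact h2 (hyp_small hn2 (not_le.1 hcon).le)
    · rw [en]; exact h4
  calc (n:ℝ≥0∞) * volume {c : ℂ | c ∈ multibrotSet n \ Hyp n ∧ (n:ℂ) * c ^ (n - 1) ∈ F ∧
        n * ‖c‖ ^ (n - 1) ≤ Y}
      ≤ n * (ENNReal.ofReal (1 / ((n - 1 : ℕ) : ℝ)) * ∫⁻ z in T, wt z) := by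
        gcongr
        exact (measure_mono hsub).trans hpull
    _ = ENNReal.ofReal (rat n) * ∫⁻ z in T, wt z := by
        rw [← mul_assoc, ← ENNReal.ofReal_natCast n, ← ENNReal.ofReal_mul hn0.le, rat]
        congr 2
        ring
    _ ≤ _ := by gcongr

/-- **the area of the non-hyperbolic parameters** -/
theorem area {F : Set ℂ} (hF : MeasurableSet F) :
    limsup (fun n : ℕ => (n:ℝ≥0∞) * volume {c : ℂ | c ∈ multibrotSet n \ Hyp n ∧
      (n:ℂ) * c ^ (n - 1) ∈ F}) atTop ≤ ∫⁻ z in F \ Hexp, wt z := by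
  obtain ⟨C, hC, htail⟩ := Pool.Agent.Results.MP_c35c17_an.AreaOrderOneOverN.result
  have hGH : ∫⁻ z in F \ G, wt z ≤ ∫⁻ z in F \ Hexp, wt z :=
    lintegral_mono_set (sdiff_subset_sdiff_right Hexp_sub_G)
  refine le_trans ?_ hGH
  set I := ∫⁻ z in F \ G, wt z with hI
  by_cases hItop : I = ⊤
  · rw [hItop]; exact le_top
  -- bound for every `δ` and `Y`
  have key : ∀ δ : ℝ≥0∞, δ ≠ 0 → δ ≠ ⊤ → ∀ Y : ℝ, 1 ≤ Y →
      limsup (fun n : ℕ => (n:ℝ≥0∞) * volume {c : ℂ | c ∈ multibrotSet n \ Hyp n ∧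
        (n:ℂ) * c ^ (n - 1) ∈ F}) atTop ≤ (I + ENNReal.ofReal (Real.exp 2) * δ) +
          ENNReal.ofReal (C * (1 + Real.log Y) / Y) := by
    intro δ hδ hδ' Y hY
    have hJ : I + ENNReal.ofReal (Real.exp 2) * δ ≠ ⊤ :=
      ENNReal.add_ne_top.2 ⟨hItop, ENNReal.mul_ne_top ENNReal.ofReal_ne_top hδ'⟩
    have hlim : Tendsto (fun n : ℕ => ENNReal.ofReal (rat n) *
        (I + ENNReal.ofReal (Real.exp 2) * δ) + ENNReal.ofReal (C * (1 + Real.log Y) / Y)) atTop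
        (𝓝 (ENNReal.ofReal 1 * (I + ENNReal.ofReal (Real.exp 2) * δ) +
          ENNReal.ofReal (C * (1 + Real.log Y) / Y))) := by
      refine Tendsto.add ?_ tendsto_const_nhds
      exact ENNReal.Tendsto.mul_const ((ENNReal.continuous_ofReal.tendsto 1).comp rat_tendsto)
        (Or.inr hJ)
    rw [ENNReal.ofReal_one, one_mul] at hlim
    rw [← hlim.limsup_eq]
    refine limsup_le_limsup ?_ (by isBoundedDefault) (by isBoundedDefault)
    filter_upwards [area_mid hF hδ (Y := Y), eventually_ge_atTop 2] with n hn hn2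
    have hn0 : (0:ℝ) < n := by positivity
    have hsub : {c : ℂ | c ∈ multibrotSet n \ Hyp n ∧ (n:ℂ) * c ^ (n - 1) ∈ F} ⊆
        {c : ℂ | c ∈ multibrotSet n \ Hyp n ∧ (n:ℂ) * c ^ (n - 1) ∈ F ∧
        n * ‖c‖ ^ (n - 1) ≤ Y} ∪ ((multibrotSet n \
        {c | ∃ m z, IsAttractingCycle (fun z => z ^ n + c) m z}) ∩
          {c | Y ≤ n * ‖c‖ ^ (n - 1)}) := by
      rintro c ⟨h1, h2⟩
      rcases le_total (n * ‖c‖ ^ (n - 1)) Y with h | h
      · exact Or.inl ⟨h1, h2, h⟩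
      · exact Or.inr ⟨h1, h⟩
    have ht := (htail n hn2).2.2.1 Y hY
    calc (n:ℝ≥0∞) * volume {c : ℂ | c ∈ multibrotSet n \ Hyp n ∧ (n:ℂ) * c ^ (n - 1) ∈ F}
        ≤ n * (volume {c : ℂ | c ∈ multibrotSet n \ Hyp n ∧ (n:ℂ) * c ^ (n - 1) ∈ F ∧
            n * ‖c‖ ^ (n - 1) ≤ Y} + volume ((multibrotSet n \
        {c | ∃ m z, IsAttractingCycle (fun z => z ^ n + c) m z}) ∩
          {c | Y ≤ n * ‖c‖ ^ (n - 1)})) := by
          gcongr
          exact (measure_mono hsub).trans (measure_union_le _ _)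
      _ = n * volume {c : ℂ | c ∈ multibrotSet n \ Hyp n ∧ (n:ℂ) * c ^ (n - 1) ∈ F ∧
            n * ‖c‖ ^ (n - 1) ≤ Y} + n * volume ((multibrotSet n \
        {c | ∃ m z, IsAttractingCycle (fun z => z ^ n + c) m z}) ∩
          {c | Y ≤ n * ‖c‖ ^ (n - 1)}) := mul_add _ _ _
      _ ≤ ENNReal.ofReal (rat n) * (I + ENNReal.ofReal (Real.exp 2) * δ) +
          n * ENNReal.ofReal (C * (1 + Real.log Y) / (n * Y)) := by
          gcongr
      _ = _ := by
          congr 1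
          rw [← ENNReal.ofReal_natCast n, ← ENNReal.ofReal_mul hn0.le]
          congr 1
          field_simp
  refine ENNReal.le_of_forall_pos_le_add fun ε hε _ => ?_
  have hε' : (0:ℝ) < ε := hε
  -- choose `Y`
  have hYlim : Tendsto (fun Y : ℝ => C * (1 + Real.log Y) / Y) atTop (𝓝 0) := by
    have h1 : Tendsto (fun Y : ℝ => Real.log Y / Y) atTop (𝓝 0) := by
      have := Real.tendsto_pow_log_div_mul_add_atTop 1 0 1 one_ne_zero
      simpa using this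
    have h2 : Tendsto (fun Y : ℝ => 1 / Y) atTop (𝓝 0) := by
      simpa using tendsto_inv_atTop_zero (𝕜 := ℝ)
    have h3 := (h2.add h1).const_mul C
    rw [add_zero, mul_zero] at h3
    refine h3.congr fun Y => ?_
    ring
  obtain ⟨Y, hY1, hY2⟩ := ((eventually_ge_atTop (1:ℝ)).and
    (hYlim.eventually_lt_const (show (0:ℝ) < ε / 2 by positivity))).exists
  have he2 : 0 < Real.exp 2 := Real.exp_pos _
  set δ : ℝ≥0∞ := ENNReal.ofReal (ε / 2 / Real.exp 2) with hδ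
  have hδ0 : δ ≠ 0 := by
    rw [hδ]; exact (ENNReal.ofReal_pos.2 (by positivity)).ne'
  refine (key δ hδ0 ENNReal.ofReal_ne_top Y hY1).trans ?_
  rw [add_assoc]
  gcongr
  rw [hδ, ← ENNReal.ofReal_mul he2.le]
  have e1 : Real.exp 2 * (ε / 2 / Real.exp 2) = ε / 2 := by field_simp
  rw [e1]
  calc ENNReal.ofReal (ε / 2) + ENNReal.ofReal (C * (1 + Real.log Y) / Y)
      ≤ ENNReal.ofReal (ε / 2) + ENNReal.ofReal (ε / 2) := by
        gcongr
    _ = ENNReal.ofReal (ε / 2 + ε / 2) := (ENNReal.ofReal_add (by positivity) (by positivity)).symm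
    _ = ε := by rw [add_halves, ENNReal.ofReal_coe_nnreal]

end Pool.Agent.Q74.EX
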