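import Mathlib
import Pool.Agent.Q74.EX.Per

set_option autoImplicit false

/-! # The maps `-μ e^w`, `μ > 0`, `μ ≠ e`, have an attracting cycle of period one or two -/

open N62a1eb23 Set Filter Topology

namespace Pool.Agent.Q74.EX

theorem neg_small {μ : ℝ} (h0 : 0 < μ) (h1 : μ < Real.exp 1) : (-(μ:ℂ)) ∈ Hexp := by
  -- `t e^t = μ`
  obtain ⟨t, ht, htμ⟩ : μ ∈ (fun t : ℝ => t * Real.exp t) '' Icc 0 1 := by
    apply intermediate_value_Icc zero_le_one (by fun_prop)
    constructor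
    · simp only [zero_mul]; exact h0.le
    · simp only [one_mul]; exact h1.le
  simp only at htμ
  have ht1 : t < 1 := by
    rcases lt_or_eq_of_le ht.2 with h | h
    · exact h
    · rw [h, one_mul] at htμ; linarith
  have e1 : μ * Real.exp (-t) = t := by
    rw [← htμ, mul_assoc, ← Real.exp_add]; simp
  have e2 : -(μ:ℂ) * Complex.exp (-(t:ℂ)) = -(t:ℂ) := by
    have : Complex.exp (-(t:ℂ)) = ((Real.exp (-t) : ℝ) : ℂ) := by push_cast; rfl
    rw [this, neg_mul, ← Complex.ofReal_mul, e1]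
  have hd : HasDerivAt (fun w => -(μ:ℂ) * Complex.exp w) (-(t:ℂ)) (-(t:ℂ)) := by
    have := (Complex.hasDerivAt_exp (-(t:ℂ))).const_mul (-(μ:ℂ))
    rwa [e2] at this
  refine ⟨1, -(t:ℂ), one_pos, ?_, ?_, ?_⟩
  · show (fun w => -(μ:ℂ) * Complex.exp w)^[1] (-(t:ℂ)) = -(t:ℂ)
    rw [Function.iterate_one]; exact e2
  · rw [Function.iterate_one]; exact hd.differentiableAt
  · rw [Function.iterate_one, hd.deriv, norm_neg, Complex.norm_real, Real.norm_eq_abs,
      abs_of_nonneg ht.1]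
    exact ht1

theorem prod_lt_one {Q R : ℝ} (hQ : 0 < Q) (hQR : Q < R) (h : Q * Real.exp R = R * Real.exp Q) :
    Q * R < 1 := by
  set v := (R - Q) / 2 with hv
  have hv0 : 0 < v := by rw [hv]; linarith
  have e1 : Q * Real.exp (2 * v) = R := by
    have : 2 * v = R - Q := by rw [hv]; ring
    rw [this, Real.exp_sub]
    field_simp
    linarith
  set w := Q * Real.exp v with hw
  have hw0 : 0 < w := by positivity
  have e2 : w ^ 2 = Q * R := by
    rw [← e1, hw, mul_pow, ← Real.exp_nat_mul]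
    push_cast
    ring
  have e3 : w * (Real.exp v - Real.exp (-v)) = 2 * v := by
    have h1 : w * Real.exp v = R := by
      rw [hw, mul_assoc, ← Real.exp_add, ← e1]
      congr 2; ring
    have h2 : w * Real.exp (-v) = Q := by
      rw [hw, mul_assoc, ← Real.exp_add]; simp
    rw [mul_sub, h1, h2, hv]; ring
  have h3 := Real.self_lt_sinh_iff.2 hv0
  rw [Real.sinh_eq] at h3
  have h4 : w < 1 := by
    by_contra hcon
    push Not at hcon
    have h5 : 0 < Real.exp v - Real.exp (-v) := by linarith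
    nlinarith
  rw [← e2]
  nlinarith

theorem neg_large {μ : ℝ} (h1 : Real.exp 1 < μ) : (-(μ:ℂ)) ∈ Hexp := by
  have he := Real.exp_pos 1
  have h0 : 0 < μ := he.trans h1
  have hc : ContinuousOn (fun q : ℝ => q * Real.exp (μ * Real.exp (-q))) (Icc 0 1) := by fun_prop
  have hμe : μ < Real.exp (μ * Real.exp (-1)) := by
    have hu : 1 < μ * Real.exp (-1) := by
      rw [Real.exp_neg, ← div_eq_mul_inv, one_lt_div he]; exact h1
    have h2 := Real.add_one_lt_exp (x := μ * Real.exp (-1) - 1) (by linarith)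
    have h3 : Real.exp (μ * Real.exp (-1)) = Real.exp 1 * Real.exp (μ * Real.exp (-1) - 1) := by
      rw [← Real.exp_add]; congr 1; ring
    have h4 : μ = Real.exp 1 * (μ * Real.exp (-1)) := by
      rw [Real.exp_neg]; field_simp
    rw [h3]
    calc μ = Real.exp 1 * (μ * Real.exp (-1)) := h4
      _ < _ := by
        apply mul_lt_mul_of_pos_left _ he
        linarith
  obtain ⟨Q, hQ, hQμ⟩ : μ ∈ (fun q : ℝ => q * Real.exp (μ * Real.exp (-q))) '' Icc 0 1 := by
    apply intermediate_value_Icc zero_le_one hc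
    constructor
    · simp only [zero_mul]; exact h0.le
    · simp only [one_mul]; exact hμe.le
  simp only at hQμ
  have hQ1 : Q < 1 := by
    rcases lt_or_eq_of_le hQ.2 with h | h
    · exact h
    · rw [h, one_mul] at hQμ; linarith
  have hQ0 : 0 < Q := by
    rcases lt_or_eq_of_le hQ.1 with h | h
    · exact h
    · rw [← h, zero_mul] at hQμ; linarith
  set R := μ * Real.exp (-Q) with hR
  have hR1 : 1 < R := by
    have h2 : Real.exp (-1) < Real.exp (-Q) := Real.exp_lt_exp.2 (by linarith)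
    have h3 : 1 < μ * Real.exp (-1) := by
      rw [Real.exp_neg, ← div_eq_mul_inv, one_lt_div he]; exact h1
    calc 1 < μ * Real.exp (-1) := h3
      _ < _ := by rw [hR]; gcongr
  have hRQ : R * Real.exp Q = μ := by
    rw [hR, mul_assoc, ← Real.exp_add]; simp
  have hprod := prod_lt_one hQ0 (hQ1.trans hR1) (hQμ.trans hRQ.symm)
  have e1 : μ * Real.exp (-R) = Q := by
    rw [← hQμ, mul_assoc, ← Real.exp_add]; simp
  have f1 : -(μ:ℂ) * Complex.exp (-(Q:ℂ)) = -(R:ℂ) := by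
    have : Complex.exp (-(Q:ℂ)) = ((Real.exp (-Q) : ℝ) : ℂ) := by push_cast; rfl
    rw [this, neg_mul, ← Complex.ofReal_mul]
  have f2 : -(μ:ℂ) * Complex.exp (-(R:ℂ)) = -(Q:ℂ) := by
    have : Complex.exp (-(R:ℂ)) = ((Real.exp (-R) : ℝ) : ℂ) := by push_cast; rfl
    rw [this, neg_mul, ← Complex.ofReal_mul, e1]
  set f : ℂ → ℂ := fun w => -(μ:ℂ) * Complex.exp w with hf
  have hd1 : HasDerivAt f (-(R:ℂ)) (-(Q:ℂ)) := by
    have := (Complex.hasDerivAt_exp (-(Q:ℂ))).const_mul (-(μ:ℂ))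
    rwa [f1] at this
  have hd2 : HasDerivAt f (-(Q:ℂ)) (-(R:ℂ)) := by
    have := (Complex.hasDerivAt_exp (-(R:ℂ))).const_mul (-(μ:ℂ))
    rwa [f2] at this
  have g1 : f (-(Q:ℂ)) = -(R:ℂ) := f1
  have g2 : f (-(R:ℂ)) = -(Q:ℂ) := f2
  have hd : HasDerivAt f^[2] (-(Q:ℂ) * -(R:ℂ)) (-(Q:ℂ)) := by
    have h2 : HasDerivAt f (-(Q:ℂ)) (f (-(Q:ℂ))) := by rw [g1]; exact hd2
    exact h2.comp (-(Q:ℂ)) hd1
  refine ⟨2, -(Q:ℂ), two_pos, ?_, hd.differentiableAt, ?_⟩
  · show f (f (-(Q:ℂ))) = -(Q:ℂ)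
    rw [g1, g2]
  · show ‖deriv f^[2] (-(Q:ℂ))‖ < 1
    rw [hd.deriv, norm_mul, norm_neg, norm_neg, Complex.norm_real, Complex.norm_real,
      Real.norm_eq_abs, Real.norm_eq_abs, abs_of_pos hQ0, abs_of_pos (by linarith)]
    exact hprod

end Pool.Agent.Q74.EX
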