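import Mathlib
import Pool.Prelude.Def_F_c31e40fa
import Pool.Agent.Q74.EX.Main
import Pool.Agent.Q74.EX.Neg

set_option autoImplicit false

open N62a1eb23 MeasureTheory Set Filter Topology Metric
open scoped ENNReal

namespace Pool.Agent.Q74.EX

/-- the logarithms of the hyperbolic parameters -/
def Lexp : Set ℂ := {κ | Complex.exp κ ∈ Hexp}

/-- a uniform choice of a nearby hyperbolic parameter over a compact set -/
theorem near {K : Set ℂ} (hK : IsCompact K) (hK0 : ∀ z ∈ K, z ≠ 0) {S : ℝ}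
    (hS : ∀ κ, infEDist κ Lexp < ENNReal.ofReal S) :
    ∃ N : ℕ, ∀ n, N ≤ n → ∀ η ∈ K, ∃ s : ℂ, ‖s‖ ≤ S ∧ HP n (η * Complex.exp s) := by
  refine hK.induction_on (p := fun T => ∃ N : ℕ, ∀ n, N ≤ n → ∀ η ∈ T, ∃ s : ℂ, ‖s‖ ≤ S ∧
    HP n (η * Complex.exp s)) ⟨0, by simp⟩ ?_ ?_ ?_
  · rintro s t hst ⟨N, hN⟩
    exact ⟨N, fun n hn η hη => hN n hn η (hst hη)⟩
  · rintro s t ⟨N, hN⟩ ⟨M, hM⟩
    refine ⟨max N M, fun n hn η hη => ?_⟩
    rcases hη with h | h
    · exact hN n (by omega) η h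
    · exact hM n (by omega) η h
  · intro x hx
    obtain ⟨κ', hκ', hd⟩ := infEDist_lt_iff.1 (hS (Complex.log x))
    set s := κ' - Complex.log x with hs
    have hexp : x * Complex.exp s ∈ G := by
      have : x * Complex.exp s = Complex.exp κ' := by
        rw [hs, Complex.exp_sub, Complex.exp_log (hK0 x hx)]
        field_simp [hK0 x hx]
      rw [this]
      exact Hexp_sub_G hκ'
    have hsS : ‖s‖ ≤ S := by
      rw [edist_comm, edist_dist, dist_eq_norm] at hd
      exact ((ENNReal.ofReal_lt_ofReal_iff_of_nonneg (norm_nonneg _)).1 hd).le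
    obtain ⟨N, U, hU, hxU, h⟩ := mem_G hexp
    have hcont : Continuous fun y : ℂ => y * Complex.exp s := by fun_prop
    exact ⟨(fun y : ℂ => y * Complex.exp s) ⁻¹' U,
      mem_nhdsWithin_of_mem_nhds ((hU.preimage hcont).mem_nhds hxU), N,
      fun n hn η hη => ⟨s, hsS, h n hn _ hη⟩⟩

/-- **the distance to the hyperbolic parameters** -/
theorem dist_bound :
    limsup (fun n : ℕ => (n:ℝ≥0∞) * ⨆ c ∈ multibrotSet n, infEDist c (Hyp n)) atTop ≤
      ⨆ κ : ℂ, infEDist κ Lexp := by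
  obtain ⟨C, hC⟩ := Pool.Agent.TH937.LF.logFree
  set g := ⨆ κ : ℂ, infEDist κ Lexp with hg
  by_cases hgt : g = ⊤
  · rw [hgt]; exact le_top
  refine ENNReal.le_of_forall_pos_le_add fun ε hε _ => ?_
  have hε' : (0:ℝ) < ε := hε
  set S : ℝ := g.toReal with hSdef
  have hgS : g = ENNReal.ofReal S := (ENNReal.ofReal_toReal hgt).symm
  have hS0 : 0 ≤ S := ENNReal.toReal_nonneg
  have hgε : g + (ε:ℝ≥0∞) = ENNReal.ofReal (S + ε) := by
    rw [ENNReal.ofReal_add hS0 hε'.le, ← hgS, ENNReal.ofReal_coe_nnreal]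
  rw [hgε]
  set Y : ℝ := |C| / ε + 1 with hY
  have hYpos : 0 < Y := by positivity
  set B : ℝ := S + ε / 2 with hB
  have hB0 : 0 < B := by positivity
  have hlt : ∀ κ, infEDist κ Lexp < ENNReal.ofReal B := by
    intro κ
    refine (le_iSup (fun κ => infEDist κ Lexp) κ).trans_lt ?_
    rw [← hg, hgS]
    exact (ENNReal.ofReal_lt_ofReal_iff hB0).2 (by rw [hB]; linarith)
  set K : Set ℂ := {z | Real.exp (-1) ≤ ‖z‖ ∧ ‖z‖ ≤ Y} with hKdef
  have hKc : IsCompact K := by
    refine (isCompact_closedBall (0:ℂ) Y).of_isClosed_subset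
      ((isClosed_le continuous_const continuous_norm).inter
      (isClosed_le continuous_norm continuous_const)) ?_
    rintro z ⟨-, hz⟩
    rw [mem_closedBall, dist_zero_right]; exact hz
  have hK0 : ∀ z ∈ K, z ≠ 0 := by
    rintro z ⟨hz, -⟩ rfl
    rw [norm_zero] at hz
    exact absurd hz (not_le.2 (Real.exp_pos _))
  obtain ⟨N, hN⟩ := near hKc hK0 hlt
  obtain ⟨M, hM⟩ := exists_nat_ge Y
  obtain ⟨L, hL⟩ := exists_nat_ge B
  have hlim : Tendsto (fun n : ℕ => rat n * (B + B ^ 2 * (1 / ((n - 1 : ℕ) : ℝ)))) atTop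
      (𝓝 (1 * (B + B ^ 2 * 0))) := by
    refine rat_tendsto.mul (tendsto_const_nhds.add (tendsto_const_nhds.mul ?_))
    exact (tendsto_one_div_atTop_nhds_zero_nat).comp (tendsto_sub_atTop_nat 1)
  have hev := hlim.eventually_lt_const (show 1 * (B + B ^ 2 * 0) < S + ε by
    rw [mul_zero, add_zero, one_mul, hB]; linarith)
  refine limsup_le_of_le (by isBoundedDefault) ?_
  filter_upwards [hev, eventually_ge_atTop N, eventually_ge_atTop M, eventually_ge_atTop 2,
    eventually_ge_atTop (L + 1)] with n hn hnN hnM hn2 hnL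
  have hn0 : (0:ℝ) < n := by positivity
  have hn1 : (0:ℝ) < ((n - 1 : ℕ) : ℝ) := by
    have : 0 < n - 1 := by omega
    exact_mod_cast this
  have hmain : ∀ c ∈ multibrotSet n, infEDist c (Hyp n) ≤ ENNReal.ofReal ((S + ε) / n) := by
    intro c hc
    rcases le_or_gt (n * ‖c‖ ^ (n - 1)) (Real.exp (-1)) with h1 | h1
    · rw [infEDist_zero_of_mem (hyp_small hn2 h1)]
      exact zero_le
    have key : ∃ c' ∈ Hyp n, ‖c' - c‖ ≤ (S + ε) / n := by
      rcases le_or_gt (n * ‖c‖ ^ (n - 1)) Y with h2 | h2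
      · have en : ‖(n:ℂ) * c ^ (n - 1)‖ = n * ‖c‖ ^ (n - 1) := by
          rw [norm_mul, norm_pow, Complex.norm_natCast]
        obtain ⟨s, hs, hHP⟩ := hN n hnN ((n:ℂ) * c ^ (n - 1)) ⟨by rw [en]; exact h1.le,
          by rw [en]; exact h2⟩
        have hc1 : ‖c‖ ≤ 1 := by
          have h3 : Y ≤ n := hM.trans (by exact_mod_cast hnM)
          have h4 : ‖c‖ ^ (n - 1) ≤ 1 := by
            by_contra hcon
            push Not at hcon
            nlinarith
          exact (pow_le_one_iff_of_nonneg (norm_nonneg _) (by omega)).1 h4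
        have hnc : ((n - 1 : ℕ) : ℂ) ≠ 0 := by
          have : n - 1 ≠ 0 := by omega
          exact_mod_cast this
        refine ⟨c * Complex.exp (s / ((n - 1 : ℕ) : ℂ)), hyp_of_HP hn2 ?_, ?_⟩
        · rw [mul_pow, ← Complex.exp_nat_mul, mul_div_cancel₀ _ hnc, ← mul_assoc]
          exact hHP
        · set x := s / ((n - 1 : ℕ) : ℂ) with hx
          have hxn : ‖x‖ ≤ B / ((n - 1 : ℕ) : ℝ) := by
            rw [hx, norm_div, Complex.norm_natCast]
            gcongr
          have hBn : B ≤ ((n - 1 : ℕ) : ℝ) := hL.trans (by exact_mod_cast (by omega : L ≤ n - 1))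
          have hx1 : ‖x‖ ≤ 1 := hxn.trans ((div_le_one hn1).2 hBn)
          have h5 := Complex.norm_exp_sub_one_sub_id_le hx1
          have h6 : ‖Complex.exp x - 1‖ ≤ ‖x‖ + ‖x‖ ^ 2 := by
            have : Complex.exp x - 1 = x + (Complex.exp x - 1 - x) := by ring
            rw [this]
            exact (norm_add_le _ _).trans (by linarith)
          have h7 : c * Complex.exp x - c = c * (Complex.exp x - 1) := by ring
          rw [h7, norm_mul, le_div_iff₀ hn0]
          calc ‖c‖ * ‖Complex.exp x - 1‖ * n ≤ 1 * (‖x‖ + ‖x‖ ^ 2) * n := by gcongr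
            _ ≤ 1 * (B / ((n - 1 : ℕ) : ℝ) + (B / ((n - 1 : ℕ) : ℝ)) ^ 2) * n := by gcongr
            _ = rat n * (B + B ^ 2 * (1 / ((n - 1 : ℕ) : ℝ))) := by
              rw [rat]; field_simp
            _ ≤ S + ε := hn.le
      · obtain ⟨c', ⟨m, z, -, hz⟩, h3⟩ := hC n hn2 c hc
        refine ⟨c', ⟨m, z, hz⟩, ?_⟩
        rw [le_div_iff₀ hn0]
        have h4 : |C| ≤ ε * (1 + n * ‖c‖ ^ (n - 1)) := by
          have h5 : ε * Y ≤ ε * (1 + n * ‖c‖ ^ (n - 1)) := by
            apply mul_le_mul_of_nonneg_left _ hε'.le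
            linarith
          refine le_trans ?_ h5
          rw [hY, mul_add, mul_div_cancel₀ _ hε'.ne']
          linarith
        have h6 : ‖c' - c‖ * n * (1 + n * ‖c‖ ^ (n - 1)) ≤ ε * (1 + n * ‖c‖ ^ (n - 1)) := by
          calc ‖c' - c‖ * n * (1 + n * ‖c‖ ^ (n - 1))
              = ‖c' - c‖ * (n * (1 + n * ‖c‖ ^ (n - 1))) := by ring
            _ ≤ C := h3
            _ ≤ |C| := le_abs_self _
            _ ≤ _ := h4
        have h7 : ‖c' - c‖ * n ≤ ε := le_of_mul_le_mul_right h6 (by positivity)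
        linarith
    obtain ⟨c', hc', hd⟩ := key
    refine (infEDist_le_edist_of_mem hc').trans ?_
    rw [edist_comm, edist_dist, dist_eq_norm]
    exact ENNReal.ofReal_le_ofReal hd
  calc (n:ℝ≥0∞) * ⨆ c ∈ multibrotSet n, infEDist c (Hyp n)
      ≤ n * ENNReal.ofReal ((S + ε) / n) := by
        gcongr
        exact iSup₂_le hmain
    _ = ENNReal.ofReal (S + ε) := by
        rw [← ENNReal.ofReal_natCast n, ← ENNReal.ofReal_mul hn0.le]
        congr 1
        field_simp

/-- every point of the plane is at distance at most `π` from the logarithms of the hyperbolic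
parameters of the exponential family -/
theorem gap_le (κ : ℂ) : infEDist κ Lexp ≤ ENNReal.ofReal Real.pi := by
  have hπ := Real.pi_pos
  refine ENNReal.le_of_forall_pos_le_add fun ε hε _ => ?_
  have hε' : (0:ℝ) < ε := hε
  obtain ⟨x, hx1, hxκ⟩ : ∃ x : ℝ, x ≠ 1 ∧ |x - κ.re| ≤ ε := by
    by_cases h : κ.re = 1
    · refine ⟨1 + ε, by linarith, ?_⟩
      rw [h, add_sub_cancel_left, abs_of_pos hε']
    · exact ⟨κ.re, h, by rw [sub_self, abs_zero]; exact hε'.le⟩
  set k : ℤ := ⌊κ.im / (2 * Real.pi)⌋ with hk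
  have hk1 : (k:ℝ) * (2 * Real.pi) ≤ κ.im := by
    rw [← le_div_iff₀ (by positivity)]; exact Int.floor_le _
  have hk2 : κ.im < (k + 1) * (2 * Real.pi) := by
    rw [← div_lt_iff₀ (by positivity)]; exact Int.lt_floor_add_one _
  set κ' : ℂ := x + (2 * k + 1) * Real.pi * Complex.I with hκ'
  have hexp : Complex.exp κ' = -((Real.exp x : ℝ) : ℂ) := by
    have : κ' = (x + Real.pi * Complex.I) + k * (2 * Real.pi * Complex.I) := by rw [hκ']; ring
    rw [this, Complex.exp_periodic.int_mul k, Complex.exp_add, Complex.exp_pi_mul_I]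
    push_cast
    ring
  have hmem : κ' ∈ Lexp := by
    show Complex.exp κ' ∈ Hexp
    rw [hexp]
    rcases lt_or_gt_of_ne hx1 with h | h
    · exact neg_small (Real.exp_pos _) (Real.exp_lt_exp.2 h)
    · exact neg_large (Real.exp_lt_exp.2 h)
  refine (infEDist_le_edist_of_mem hmem).trans ?_
  have hdist : dist κ κ' ≤ Real.pi + ε := by
    have e : κ - κ' = ((κ.re - x : ℝ) : ℂ) + ((κ.im - (2 * k + 1) * Real.pi : ℝ) : ℂ) *
        Complex.I := by
      rw [hκ']
      apply Complex.ext <;> simp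
    rw [dist_eq_norm, e]
    refine (norm_add_le _ _).trans ?_
    rw [norm_mul, Complex.norm_I, mul_one, Complex.norm_real, Complex.norm_real, Real.norm_eq_abs,
      Real.norm_eq_abs]
    have h1 : |κ.re - x| ≤ ε := by rw [abs_sub_comm]; exact hxκ
    have h2 : |κ.im - (2 * k + 1) * Real.pi| ≤ Real.pi := by
      rw [abs_le]
      constructor <;> linarith
    linarith
  rw [edist_dist]
  refine (ENNReal.ofReal_le_ofReal hdist).trans ?_
  rw [ENNReal.ofReal_add hπ.le hε'.le, ENNReal.ofReal_coe_nnreal]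

end Pool.Agent.Q74.EX
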